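import Mathlib

/-!
# Functions that are at most three along a long progression of difference `e`

If for infinitely many `e` the function `f` is at most three along some progression of difference
`e` with `2 f(e) - 1` terms (beyond any given bound), then `f` is admissible, however fast it grows
elsewhere.
-/

namespace Pool.Agent.Results.MP_61dde8_co.ThreeOnProgressions

/-- The colouring `C` has a progression of colour `b`, difference `d` and `k` terms. -/
def HasAP (C : ℤ → Bool) (b : Bool) (d k : ℕ) : Prop :=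
  ∃ a : ℤ, ∀ i < k, C (a + i * d) = b

/-- The admissible functions of the problem. -/
def Admissible (f : ℕ → ℕ) : Prop :=
  ∀ C : ℤ → Bool, ∃ b : Bool, {d : ℕ | 1 ≤ d ∧ HasAP C b d (f d)}.Infinite

theorem HasAP.mono {C : ℤ → Bool} {b : Bool} {d k l : ℕ} (h : HasAP C b d k) (hl : l ≤ k) :
    HasAP C b d l := by
  obtain ⟨a, ha⟩ := h
  exact ⟨a, fun i hi => ha i (lt_of_lt_of_le hi hl)⟩

/-- Three points in progression of one colour. -/
theorem hasAP_three {C : ℤ → Bool} {b : Bool} {d : ℕ} (x : ℤ) (h0 : C (x - d) = b) (h1 : C x = b)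
    (h2 : C (x + d) = b) : HasAP C b d 3 := by
  refine ⟨x - d, fun i hi => ?_⟩
  have h : i = 0 ∨ i = 1 ∨ i = 2 := by omega
  rcases h with rfl | rfl | rfl
  · simpa using h0
  · have : x - (d : ℤ) + ((1 : ℕ) : ℤ) * d = x := by push_cast; ring
    rw [this]; exact h1
  · have : x - (d : ℤ) + ((2 : ℕ) : ℤ) * d = x + d := by push_cast; ring
    rw [this]; exact h2

/-- If neither colour has `k` terms in a row in the sequence `s`, then there is a change from
colour `c` to the other colour within the first `2 k - 1` terms. -/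
theorem exists_change (s : ℕ → Bool) (c : Bool) (k : ℕ)
    (h : ∀ b j, ∃ i < k, s (j + i) ≠ b) :
    ∃ i, i + 1 < 2 * k - 1 ∧ s i = c ∧ s (i + 1) ≠ c := by
  obtain ⟨i0, hi0, h0⟩ := h (!c) 0
  have h0' : s i0 = c := by
    rw [Nat.zero_add] at h0
    revert h0
    cases s i0 <;> cases c <;> simp
  by_contra hno
  push Not at hno
  obtain ⟨i1, hi1, h1⟩ := h c i0
  have hall : ∀ i < k, s (i0 + i) = c := by
    intro i
    induction i with
    | zero => intro _; simpa using h0'
    | succ i ih =>
      intro hi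
      exact hno (i0 + i) (by omega) (ih (by omega))
  exact h1 (hall i1 hi1)

/-- If `f` is at most three along progressions of difference `e` with `2 f(e) - 1` terms, with `e`
and the first term arbitrarily large, then `f` is admissible. -/
theorem result (f : ℕ → ℕ)
    (h : ∀ N : ℕ, ∃ e a : ℕ, N ≤ e ∧ N ≤ a ∧ ∀ i < 2 * f e - 1, f (a + i * e) ≤ 3) :
    Admissible f := by
  intro C
  by_contra hC
  push Not at hC
  -- beyond `N` no difference is good
  obtain ⟨N, hN⟩ : ∃ N : ℕ, ∀ d, N ≤ d → 1 ≤ d → ∀ b, ¬ HasAP C b d (f d) := by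
    have h1 : ∀ b, ∃ N : ℕ, ∀ d, N ≤ d → 1 ≤ d → ¬ HasAP C b d (f d) := by
      intro b
      obtain ⟨N, hN⟩ := (hC b).bddAbove
      refine ⟨N + 1, fun d hd h1 hAP => ?_⟩
      have := hN (show d ∈ {d : ℕ | 1 ≤ d ∧ HasAP C b d (f d)} from ⟨h1, hAP⟩)
      omega
    choose N hN using h1
    refine ⟨max (N true) (N false), fun d hd h1 b => ?_⟩
    cases b
    · exact hN false d (le_trans (le_max_right _ _) hd) h1
    · exact hN true d (le_trans (le_max_left _ _) hd) h1
  obtain ⟨e, a, he, ha, hf⟩ := h (N + 1)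
  -- no one-coloured three-term progression for the differences with `f d ≤ 3`
  have h3 : ∀ d, N ≤ d → 1 ≤ d → f d ≤ 3 → ∀ b (x : ℤ), C (x - d) = b → C x = b → C (x + d) ≠ b := by
    intro d hd h1 hf b x e0 e1 e2
    exact hN d hd h1 b ((hasAP_three x e0 e1 e2).mono hf)
  -- the colouring is periodic modulo `2 e`
  have hper : ∀ w : ℤ, C (w + 2 * e) = C w := by
    intro w
    obtain ⟨i, hi, hi1, hi2⟩ := exists_change (fun i => C (w + a + (i + 1 : ℕ) * e)) (C w) (f e)
      (by
        intro b j
        by_contra hno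
        push Not at hno
        refine hN e (by omega) (by omega) b ⟨w + a + (j + 1 : ℕ) * e, fun i hi => ?_⟩
        rw [← hno i hi]
        congr 1
        push_cast
        ring)
    set d : ℕ := a + (i + 1) * e with hd
    set d' : ℕ := a + i * e with hd'
    have hdd : d = d' + e := by rw [hd, hd']; ring
    have e0 : w + a + (i + 1 : ℕ) * e = w + d := by rw [hd]; push_cast; ring
    have e1 : w + a + (i + 1 + 1 : ℕ) * e = w + d + e := by rw [hd]; push_cast; ring
    simp only [e0, e1] at hi1 hi2
    have hfd : f d ≤ 3 := hf (i + 1) (by omega)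
    have hfd' : f d' ≤ 3 := hf i (by omega)
    have hd0 : N + 1 ≤ d := by rw [hd]; exact le_trans ha (Nat.le_add_right _ _)
    have hd0' : N + 1 ≤ d' := by rw [hd']; exact le_trans ha (Nat.le_add_right _ _)
    have k1 : C (w + d + d) ≠ C w := by
      refine h3 d (by omega) (by omega) hfd (C w) (w + d) ?_ hi1
      congr 1
      ring
    by_contra hne
    have k2 : C (w + d + e + d') ≠ C (w + d + e) := by
      refine h3 d' (by omega) (by omega) hfd' (C (w + d + e)) (w + d + e) ?_ rfl
      have e2 : w + (d : ℤ) + e - d' = w + 2 * e := by rw [hdd]; push_cast; ring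
      rw [e2]
      revert hne hi2
      cases C (w + 2 * e) <;> cases C w <;> cases C (w + d + e) <;> simp
    have e3 : w + (d : ℤ) + e + d' = w + d + d := by rw [hdd]; push_cast; ring
    rw [e3] at k2
    revert k1 k2 hi2
    cases C (w + d + d) <;> cases C w <;> cases C (w + d + e) <;> simp
  have hper2 : ∀ i : ℕ, C (0 + (i : ℤ) * (2 * e : ℕ)) = C 0 := by
    intro i
    induction i with
    | zero => simp
    | succ i ih =>
      rw [← ih, ← hper (0 + (i : ℤ) * (2 * e : ℕ))]
      congr 1
      push_cast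
      ring
  exact hN (2 * e) (by omega) (by omega) (C 0) ⟨0, fun i _ => hper2 i⟩

/-- The case of one fixed difference `m`: if `f ≤ 3` on arbitrarily long progressions of
difference `m`, then `f` is admissible. -/
theorem of_fixed_difference (f : ℕ → ℕ) (m : ℕ) (hm : 1 ≤ m)
    (h : ∀ k : ℕ, ∃ a : ℕ, ∀ i < k, f (a + i * m) ≤ 3) : Admissible f := by
  refine result f fun N => ?_
  obtain ⟨a, ha⟩ := h (N + (2 * f (m * (N + 1)) - 1) * (N + 1))
  refine ⟨m * (N + 1), a + N * m, ?_, ?_, fun i hi => ?_⟩
  · nlinarith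
  · nlinarith
  · have h1 : a + N * m + i * (m * (N + 1)) = a + (N + i * (N + 1)) * m := by ring
    rw [h1]
    refine ha _ ?_
    have h2 : (i + 1) * (N + 1) ≤ (2 * f (m * (N + 1)) - 1) * (N + 1) :=
      Nat.mul_le_mul_right _ hi
    nlinarith

end Pool.Agent.Results.MP_61dde8_co.ThreeOnProgressions
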