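import Mathlib
import Pool.Agent.WND.Main

/-!
# Differences in an arc: the exact criterion

For irrational `α` and an arc `(s, t)` of the circle, the bound `f d ≤ 3` for all `d` with
`α d ∈ (s, t)` modulo `1` makes `f` admissible, whatever its other values, exactly when no
`k ≥ 1` satisfies `‖k x‖ ≥ 1 / 4` for all `x ∈ (s, t)`. So the only obstructions are the
colourings by half circles `x ↦ [k α x ∈ (0, 1 / 2)]`.
-/

namespace Pool.Agent.Results.MP_61dde8_co.EveryArc

/-- The colouring `C` has a progression of colour `b`, difference `d` and `k` terms. -/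
def HasAP (C : ℤ → Bool) (b : Bool) (d k : ℕ) : Prop :=
  ∃ a : ℤ, ∀ i < k, C (a + i * d) = b

/-- The admissible functions of the problem. -/
def Admissible (f : ℕ → ℕ) : Prop :=
  ∀ C : ℤ → Bool, ∃ b : Bool, {d : ℕ | 1 ≤ d ∧ HasAP C b d (f d)}.Infinite

/-- Distance to the nearest integer. -/
noncomputable def distInt (x : ℝ) : ℝ := |x - round x|

theorem result (α : ℝ) (hα : Irrational α) (s t : ℝ) (hs : 0 ≤ s) (hst : s < t) (ht : t ≤ 1) :
    (∀ f : ℕ → ℕ, (∀ d : ℕ, 1 ≤ d → s < Int.fract (α * d) → Int.fract (α * d) < t → f d ≤ 3) →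
      Admissible f) ↔
    ¬ ∃ k : ℕ, 1 ≤ k ∧ ∀ x : ℝ, s < x → x < t → 1 / 4 ≤ distInt (k * x) :=
  Pool.Agent.WND.every_arc α hα s t hs hst ht

end Pool.Agent.Results.MP_61dde8_co.EveryArc
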