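import Mathlib
import Pool.Agent.WNE.Main

/-!
# Differences in an open set of the circle that contains a long arc: the exact criterion

For irrational `α` and an open set `U` that contains an arc `(s, t)` with `2 s < t` (or the
preimage of such an arc under `x ↦ m x`, up to the symmetry `x ↦ -x`), the bound `f d ≤ 3` for
all `d` with `α d ∈ U` modulo `1` makes `f` admissible, whatever its other values, exactly when
no `k ≥ 1` satisfies `‖k x‖ ≥ 1 / 4` for all `x ∈ U`. So the only obstructions are the colourings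
by half circles `x ↦ [k α x ∈ (0, 1 / 2)]`.
-/

namespace Pool.Agent.Results.MP_61dde8_co.LongArc

/-- The colouring `C` has a progression of colour `b`, difference `d` and `k` terms. -/
def HasAP (C : ℤ → Bool) (b : Bool) (d k : ℕ) : Prop :=
  ∃ a : ℤ, ∀ i < k, C (a + i * d) = b

/-- The admissible functions of the problem. -/
def Admissible (f : ℕ → ℕ) : Prop :=
  ∀ C : ℤ → Bool, ∃ b : Bool, {d : ℕ | 1 ≤ d ∧ HasAP C b d (f d)}.Infinite

/-- Distance to the nearest integer. -/
noncomputable def distInt (x : ℝ) : ℝ := |x - round x|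

theorem result (α : ℝ) (hα : Irrational α) (U : Set ℝ) (hU : IsOpen U) (m : ℕ) (hm : 1 ≤ m)
    (s t : ℝ) (hs : 0 ≤ s) (hst : 2 * s < t) (ht : t ≤ 1)
    (hsub : ∀ x : ℝ, 0 < x → x < 1 → s < Int.fract (m * x) → Int.fract (m * x) < t →
      x ∈ U ∨ 1 - x ∈ U) :
    (∀ f : ℕ → ℕ, (∀ d : ℕ, 1 ≤ d → Int.fract (α * d) ∈ U → f d ≤ 3) → Admissible f) ↔
    ¬ ∃ k : ℕ, 1 ≤ k ∧ ∀ x ∈ U, 0 < x → x < 1 → 1 / 4 ≤ distInt (k * x) :=
  Pool.Agent.WNE.long_arc α hα U hU m hm s t hs hst ht hsub

end Pool.Agent.Results.MP_61dde8_co.LongArc
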