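import Pool.Agent.TLP.Colour
import Pool.Agent.TLP.Lacunary

/-!
# Admissible functions and recurrence along polynomial phases

Let `f` be admissible and unbounded in the sense that `max (f, K)` is admissible for every `K`
(every admissible `f` tending to infinity is such).  Then for every `ε > 0` the set of all `d` with
`f d < d ^ ε` is a set of multiple recurrence for polynomial phases.
-/

namespace Pool.Agent.Results.MP_61dde8_co.PolynomialPhases

open Polynomial Filter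

/-- The colouring `C` has a progression of colour `b`, difference `d` and `k` terms. -/
def HasAP (C : ℤ → Bool) (b : Bool) (d k : ℕ) : Prop :=
  ∃ a : ℤ, ∀ i < k, C (a + i * d) = b

/-- The admissible functions of the problem. -/
def Admissible (f : ℕ → ℕ) : Prop :=
  ∀ C : ℤ → Bool, ∃ b : Bool, {d : ℕ | 1 ≤ d ∧ HasAP C b d (f d)}.Infinite

/-- Distance to the nearest integer. -/
noncomputable def distInt (x : ℝ) : ℝ := |x - round x|

/-- For all real polynomials `p 0, ..., p (k - 1)`, all `δ > 0` and all `L` there are a `d ≥ 1` in `D`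
and an integer `x` such that, modulo one, every `p i` changes by less than `δ` between `x` and
each of the points `x + j d`, `j < L`. -/
def PolyRecurrent (D : Set ℕ) : Prop :=
  ∀ (k : ℕ) (p : Fin k → ℝ[X]) (δ : ℝ), 0 < δ → ∀ L : ℕ, ∃ d ∈ D, 1 ≤ d ∧ ∃ x : ℤ,
    ∀ j < L, ∀ i, distInt ((p i).eval ((x + j * d : ℤ) : ℝ) - (p i).eval (x : ℝ)) < δ

/-- `D` is covered by finitely many lacunary sequences of positive integers. -/
def FinUnionLacunary (D : Set ℕ) : Prop :=
  ∃ (m : ℕ) (a : Fin m → ℕ → ℕ),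
    (∀ i, 1 ≤ a i 0 ∧ ∃ r : ℝ, 1 < r ∧ ∀ n, r * a i n ≤ a i (n + 1)) ∧
    ∀ d ∈ D, ∃ i n, d = a i n

theorem HasAP.mono {C : ℤ → Bool} {b : Bool} {d k l : ℕ} (h : HasAP C b d k) (hl : l ≤ k) :
    HasAP C b d l := by
  obtain ⟨a, ha⟩ := h
  exact ⟨a, fun i hi => ha i (lt_of_lt_of_le hi hl)⟩

theorem general (f : ℕ → ℕ) (hf : ∀ K : ℕ, Admissible (fun d => max (f d) K)) (ε : ℝ) (hε : 0 < ε) :
    PolyRecurrent {d : ℕ | (f d : ℝ) < (d : ℝ) ^ ε} := by
  intro k p δ hδ L
  obtain ⟨K, C, hC⟩ := TLP.colouring ε hε k p δ hδ L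
  obtain ⟨b, hb⟩ := hf K C
  obtain ⟨d, hd1, hAP⟩ := hb.nonempty
  obtain ⟨h1, h2⟩ := hC d hd1 b
  refine ⟨d, ?_, hd1, ?_⟩
  · show (f d : ℝ) < (d : ℝ) ^ ε
    by_contra hlt
    push Not at hlt
    exact h1 (max (f d) K) (le_max_right _ _) (hlt.trans (by exact_mod_cast le_max_left _ _)) hAP
  · by_contra hno
    refine h2 ?_ (hAP.mono (le_max_right _ _))
    exact hno

theorem admissible_max (f : ℕ → ℕ) (hf : Admissible f) (hlim : Tendsto f atTop atTop) (K : ℕ) :
    Admissible (fun d => max (f d) K) := by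
  intro C
  obtain ⟨b, hb⟩ := hf C
  obtain ⟨N, hN⟩ := (tendsto_atTop.1 hlim K).exists_forall_of_atTop
  refine ⟨b, ?_⟩
  refine (hb.sdiff (Set.finite_lt_nat N)).mono ?_
  rintro d ⟨⟨hd1, hAP⟩, hdN⟩
  have hge : N ≤ d := by simpa using hdN
  refine ⟨hd1, ?_⟩
  show HasAP C b d (max (f d) K)
  rw [max_eq_left (hN d hge)]
  exact hAP

theorem lacunary_list {D : Set ℕ} (hD : FinUnionLacunary D) :
    ∃ S : List ℝ, ∀ d ∈ D, ∃ α ∈ S, 1 / 4 ≤ TLP.dz (d * α) := by
  obtain ⟨m, a, ha, hDa⟩ := hD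
  have h : ∀ i : Fin m, ∃ S : List ℝ, ∀ n, ∃ α ∈ S, 1 / 4 ≤ TLP.dz (a i n * α) := fun i => by
    obtain ⟨h0, r, hr, hn⟩ := ha i
    exact TLP.lac_list (a i) h0 r hr hn
  choose S hS using h
  refine ⟨(List.finRange m).flatMap S, fun d hd => ?_⟩
  obtain ⟨i, n, rfl⟩ := hDa d hd
  obtain ⟨α, hα, h1⟩ := hS i n
  exact ⟨α, List.mem_flatMap.2 ⟨i, List.mem_finRange i, hα⟩, h1⟩

/-- (1) If `max (f, K)` is admissible for every `K` then for every `ε > 0` the set
`{d : f d < d ^ ε}` is recurrent for polynomial phases; (2) this holds for every admissible `f`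
tending to infinity; (3) in particular a function tending to infinity, however slowly, with
`f d ≥ d ^ ε` off a finite union of lacunary sequences is not admissible. -/
theorem result :
    (∀ f : ℕ → ℕ, (∀ K : ℕ, Admissible (fun d => max (f d) K)) →
      ∀ ε : ℝ, 0 < ε → PolyRecurrent {d : ℕ | (f d : ℝ) < (d : ℝ) ^ ε}) ∧
    (∀ f : ℕ → ℕ, Admissible f → Tendsto f atTop atTop →
      ∀ ε : ℝ, 0 < ε → PolyRecurrent {d : ℕ | (f d : ℝ) < (d : ℝ) ^ ε}) ∧
    (∀ D : Set ℕ, FinUnionLacunary D → ∀ f : ℕ → ℕ, Tendsto f atTop atTop →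
      ∀ ε : ℝ, 0 < ε → (∀ d : ℕ, d ∉ D → (d : ℝ) ^ ε ≤ f d) → ¬ Admissible f) := by
  refine ⟨general, fun f hf hlim => general f (admissible_max f hf hlim), ?_⟩
  intro D hD f hlim ε hε hoff hf
  obtain ⟨S, hS⟩ := lacunary_list hD
  obtain ⟨d, hd, -, x, hx⟩ := general f (admissible_max f hf hlim) ε hε S.length
    (fun i => C (S.get i) * X) (1 / 4) (by norm_num) 2
  have hdD : d ∈ D := by
    by_contra hnd
    exact absurd hd (not_lt.2 (hoff d hnd))
  obtain ⟨α, hα, h1⟩ := hS d hdD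
  obtain ⟨i, hi⟩ := List.mem_iff_get.1 hα
  have h2 := hx 1 (by norm_num) i
  simp only [eval_mul, eval_C, eval_X, hi] at h2
  have h3 : α * ((x + ((1 : ℕ) : ℤ) * d : ℤ) : ℝ) - α * (x : ℝ) = d * α := by
    push_cast; ring
  rw [h3] at h2
  exact absurd h2 (not_lt.2 h1)

end Pool.Agent.Results.MP_61dde8_co.PolynomialPhases
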